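import Pool.Agent.Lib.MP_deca50_lc.Core

/-!
Over an alphabet of even size `q ≥ 4` not divisible by three, no code of minimum distance `d ≥ 5`
and length `n ≥ q + d - 3` attains the Singleton bound.
-/

open Finset

namespace Pool.Agent.Results.MP_deca50_lc.EvenAlphabet

open Pool.Agent.Lib.MP_deca50_lc

theorem result (q n d : ℕ) (h4 : 4 ≤ q) (h2 : Even q) (h3 : ¬3 ∣ q) (hd : 5 ≤ d)
    (hn : q + d ≤ n + 3) :
    ¬∃ C : Finset (Fin n → Fin q), C.card = q ^ (n - d + 1) ∧
      ∀ c ∈ C, ∀ c' ∈ C, c ≠ c' → d ≤ hammingDist c c' := by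
  rintro ⟨C, hC, hdist⟩
  have hU : ∀ c ∈ C, ∀ c' ∈ C, ∀ R : Finset (Fin n), R.card < d → (∀ m, m ∉ R → c m = c' m) →
      c = c' := fun c hc c' hc' R hR h => by
    by_contra hne
    refine (hdist c hc c' hc' hne).not_gt (lt_of_le_of_lt (card_le_card fun m hm => ?_) hR)
    by_contra hm'
    exact (mem_filter.1 hm).2 (h m hm')
  have hE : ∀ (x : Fin n → Fin q) (R : Finset (Fin n)), R.card + 1 = d →
      ∃ c ∈ C, ∀ m, m ∉ R → c m = x m := fun x R hR => by
    obtain ⟨c, hc, h⟩ := surjOn_of_injOn_of_card_le (s := C) (t := univ)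
      (fun c (m : ↥(Rᶜ)) => c m) (fun _ _ => mem_univ _)
      (fun c hc c' hc' h => hU c hc c' hc' R (by omega) fun m hm => congrFun h ⟨m, mem_compl.2 hm⟩)
      (by
        rw [hC, card_univ, Fintype.card_fun, Fintype.card_coe, card_compl, Fintype.card_fin,
          Fintype.card_fin]
        exact Nat.pow_le_pow_right (by omega) (by omega)) (mem_univ fun m : ↥(Rᶜ) => x m)
    exact ⟨c, hc, fun m hm => congrFun h ⟨m, mem_compl.2 hm⟩⟩
  obtain ⟨F, -, hF⟩ := exists_subset_card_eq (s := (univ : Finset (Fin n))) (n := d - 5)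
    (by rw [card_univ, Fintype.card_fin]; omega)
  obtain ⟨K, hK, hK'⟩ := exists_subset_card_eq (s := Fᶜ) (n := q + 2)
    (by rw [card_compl, Fintype.card_fin]; omega)
  have hFK : Disjoint F K := disjoint_left.2 fun m h1 h2 => mem_compl.1 (hK h2) h1
  have hT : ∀ a b e f : K, ({a.1, b.1, e.1, f.1} : Finset (Fin n)) ⊆ K := fun a b e f => by
    simp [insert_subset_iff]
  have H : Mds {y : K → Fin q | ∃ c ∈ C, (∀ m : K, c m = y m) ∧
      ∀ m, m ∉ K → m ∉ F → c m = ⟨0, by omega⟩} := by
    refine ⟨?_, fun y a b e f => ?_, by simpa using hK'⟩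
    · rintro y ⟨c, hc, h5, h6⟩ y' ⟨c', hc', h7, h8⟩ a b e f h
      obtain rfl := hU c hc c' hc' (F ∪ {a.1, b.1, e.1, f.1})
        (((card_union_le _ _).trans (add_le_add le_rfl card_le_four)).trans_lt (by omega))
        fun m hm => by
          simp only [mem_union, mem_insert, mem_singleton, not_or] at hm
          by_cases h9 : m ∈ K
          · exact (h5 ⟨m, h9⟩).trans ((h ⟨m, h9⟩ (fun t => hm.2.1 (congrArg Subtype.val t))
              (fun t => hm.2.2.1 (congrArg Subtype.val t))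
              (fun t => hm.2.2.2.1 (congrArg Subtype.val t))
              fun t => hm.2.2.2.2 (congrArg Subtype.val t)).trans (h7 ⟨m, h9⟩).symm)
          · rw [h6 m h9 hm.1, h8 m h9 hm.1]
      exact funext fun m => (h5 m).symm.trans (h7 m)
    · obtain ⟨T, h5, h6, h7⟩ := exists_subsuperset_card_eq (n := 4) (hT a b e f) card_le_four
        (by omega)
      obtain ⟨c, hc, h8⟩ := hE (fun m => if h : m ∈ K then y ⟨m, h⟩ else ⟨0, by omega⟩) (F ∪ T)
        (by rw [card_union_of_disjoint (hFK.mono_right h6)]; omega)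
      refine ⟨fun m => c m, ⟨c, hc, fun _ => rfl, fun m h9 h10 => ?_⟩,
        fun t1 t2 t3 t4 t5 t6 m m1 m2 m3 m4 => ?_⟩
      · rw [h8 m (by simp [h10, mt (@h6 m) h9]), dif_neg h9]
      · have h9 : ({a.1, b.1, e.1, f.1} : Finset (Fin n)).card = 4 := by
          rw [card_insert_of_notMem, card_insert_of_notMem, card_pair] <;>
            simp [t1, t2, t3, t4, t5, t6]
        obtain rfl := eq_of_subset_of_card_le h5 (by omega)
        exact (h8 m (by simp [m1, m2, m3, m4, disjoint_right.1 hFK m.2])).trans (dif_pos m.2)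
  exact h3 (by simpa using H.three_dvd_card (by simpa using h2) (by simpa using h4))

end Pool.Agent.Results.MP_deca50_lc.EvenAlphabet
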