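import Pool.Agent.Lib.MP_deca50_lc.Even.Core
import Pool.Agent.Lib.MP_deca50_lc.Even.Exist
import Pool.Agent.Lib.MP_deca50_lc.Three.Main

/-! The MDS conjecture for linear codes over every finite field. The argument for even order
(`Even/`) is due to helper83; its first hand-in is kept as `Variants/MP_deca50_lc/LinearEven`.
The middle range in characteristic three (`Three/`) is the argument of helper34 (iteration and
zigzag), helper43 (two copies, first step) and helper69 (multiplicity at one point). -/

namespace Pool.Agent.Results.MP_deca50_lc.LinearMDS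

open Pool.Agent.Lib.MP_deca50_lc.Even Pool.Agent.Lib.MP_deca50_lc.Three

theorem result (F : Type) [Field F] [Fintype F] [DecidableEq F]
    (n d : ℕ) (hd : 1 ≤ d) (hdn : d ≤ n) :
    (∃ C : Submodule F (Fin n → F), Nat.card C = Fintype.card F ^ (n - d + 1) ∧
      IsLeast {w : ℕ | ∃ x ∈ C, ∃ y ∈ C, x ≠ y ∧ hammingDist x y = w} d) ↔
    (d = 1 ∨ d = 2 ∨ d = n ∨ n ≤ Fintype.card F + 1 ∨
      (Even (Fintype.card F) ∧ n = Fintype.card F + 2 ∧ (d = 4 ∨ d = Fintype.card F))) := by
  rw [MDS_iff hd hdn]
  have hq : 1 < Fintype.card F := Fintype.one_lt_card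
  constructor
  · intro h
    by_cases h1 : 2 ≤ n - d + 1 ∧ n - d + 1 + 2 ≤ n
    · by_cases hF : Even (Fintype.card F)
      · rcases upper_of_core hF (core hF) h h1.1 h1.2 with h4 | h4
        · exact Or.inr (Or.inr (Or.inr (Or.inl h4)))
        · exact Or.inr (Or.inr (Or.inr (Or.inr ⟨hF, h4.1, by omega⟩)))
      · obtain ⟨p, hc, e, hp, he⟩ := FiniteField.card' F
        have := Fact.mk hp
        have hdvd : p ∣ Fintype.card F := by rw [he]; exact dvd_pow_self p e.ne_zero
        have hp2 : p ≠ 2 := by
          rintro rfl
          exact hF (even_iff_two_dvd.mpr hdvd)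
        have hp1 := hp.two_le
        exact Or.inr (Or.inr (Or.inr (Or.inl (upper_all p (by omega) h h1.1 h1.2))))
    · omega
  · rintro (h | h | h | h | ⟨hF, h, h' | h'⟩)
    · have : n - d + 1 = n := by omega
      rw [this]; exact MDS_self n
    · have : n - d + 1 = n - 1 := by omega
      rw [this]; exact (MDS_one (by omega)).dual (by omega)
    · have : n - d + 1 = 1 := by omega
      rw [this]; exact MDS_one (by omega)
    · exact MDS_rs (by omega) (by omega) h
    · have : n - d + 1 = Fintype.card F + 2 - 3 := by omega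
      rw [this, h]; exact (MDS_hyperoval hF).dual (by omega)
    · have : n - d + 1 = 3 := by omega
      rw [this, h]; exact MDS_hyperoval hF

end Pool.Agent.Results.MP_deca50_lc.LinearMDS
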