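import Pool.Agent.Lib.MP_deca50_lc.CES.Main

/-!
For each dimension `k` there is an exponent `C` such that the Singleton bound is attained for all
triples `(q, n, d)` with `n - d + 1 = k` and `q ≥ n ^ C`.
-/

open Finset

namespace Pool.Agent.Results.MP_deca50_lc.PolynomialOrder

open Pool.Agent.Lib.MP_deca50_lc.CES

theorem result (k : ℕ) : ∃ C : ℕ, ∀ q n d : ℕ, 2 ≤ q → 1 ≤ d → d ≤ n → n - d + 1 = k →
    n ^ C ≤ q → ∃ S : Finset (Fin n → Fin q), S.card = q ^ (n - d + 1) ∧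
      (∀ c ∈ S, ∀ c' ∈ S, c ≠ c' → d ≤ hammingDist c c') ∧
      ∃ c ∈ S, ∃ c' ∈ S, c ≠ c' ∧ hammingDist c c' = d := by
  rcases Nat.eq_zero_or_pos k with rfl | hk
  · exact ⟨0, fun q n d _ _ _ h => by omega⟩
  obtain ⟨C, hC⟩ := exists_oa k hk
  refine ⟨C, fun q n d hq hd hdn hk' hn => ?_⟩
  obtain rfl : d = n - k + 1 := by omega
  rw [hk']
  by_cases h2 : 2 ≤ n
  · obtain ⟨Y, A, T, hA, hT⟩ := hC n q h2 (by omega) hn
    exact code_of_oa hk (by omega) hq hA hT
  · refine code_of_oa (A := fun _ => univ) (T := (univ : Finset (Fin n → Fin q))) hk (by omega) hq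
      (by simp) ⟨by simp, fun I hI y _ => ⟨y, ⟨mem_univ _, fun _ _ => rfl⟩, fun z hz => ?_⟩⟩
    obtain rfl : I = univ := eq_univ_of_card _ (by rw [Fintype.card_fin]; omega)
    exact funext fun i => hz.2 i (mem_univ i)

end Pool.Agent.Results.MP_deca50_lc.PolynomialOrder
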