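import Pool.Agent.FS.Supercode.Core

/-!
A code of dimension `q - 2` and distance `d ≥ 4` attaining the Singleton bound lies in a (unique)
code of the same length, dimension `q - 1` and distance `d - 1` exactly when `q` is even.
-/

open Finset

namespace Pool.Agent.Results.MP_deca50_lc.Supercode

open Pool.Agent.FS.Supercode

theorem result (q n d : ℕ) (hq : 3 ≤ q) (hd : 4 ≤ d) (hn : n + 3 = q + d)
    (C : Finset (Fin n → Fin q)) (hC : C.card = q ^ (n - d + 1))
    (hdist : ∀ c ∈ C, ∀ c' ∈ C, c ≠ c' → d ≤ hammingDist c c') :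
    (∃! U : Finset (Fin n → Fin q), C ⊆ U ∧ U.card = q ^ (n - (d - 1) + 1) ∧
      IsLeast {w : ℕ | ∃ c ∈ U, ∃ c' ∈ U, c ≠ c' ∧ hammingDist c c' = w} (d - 1)) ↔ Even q := by
  classical
  obtain ⟨r, rfl⟩ := Nat.exists_eq_add_of_le' hd
  have hle : ∀ (x y : Fin n → Fin q) (T : Finset (Fin n)), (∀ m, m ∉ T → x m = y m) →
      hammingDist x y ≤ T.card := fun x y T h => card_le_card fun m hm => by
    by_contra t
    exact (mem_filter.1 hm).2 (h m t)
  have hoff : ∀ (x y : Fin n → Fin q) m, m ∉ univ.filter (fun i => x i ≠ y i) → x m = y m :=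
    fun x y m hm => by simpa using hm
  have hU : ∀ c ∈ C, ∀ c' ∈ C, ∀ T : Finset (Fin n), T.card ≤ r + 3 →
      (∀ m, m ∉ T → c m = c' m) → c = c' := fun c hc c' hc' T hT h => by
    by_contra hne
    have := (hdist c hc c' hc' hne).trans (hle c c' T h)
    omega
  have H : Mds (C : Set (Fin n → Fin q)) r := by
    refine ⟨hU, fun x T hT => ?_, by simp only [Fintype.card_fin]; omega⟩
    obtain ⟨c, hc, h⟩ := surjOn_of_injOn_of_card_le (s := C) (t := univ)
      (fun c (m : ↥(Tᶜ)) => c m) (fun _ _ => mem_univ _)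
      (fun c hc c' hc' h => hU c hc c' hc' T hT.le fun m hm => congrFun h ⟨m, mem_compl.2 hm⟩)
      (by
        rw [hC, card_univ, Fintype.card_fun, Fintype.card_coe, card_compl, Fintype.card_fin,
          Fintype.card_fin]
        exact Nat.pow_le_pow_right (by omega) (by omega)) (mem_univ fun m : ↥(Tᶜ) => x m)
    exact ⟨c, hc, fun m hm => congrFun h ⟨m, mem_compl.2 hm⟩⟩
  have hlt : C.card < q ^ (n - (r + 4 - 1) + 1) := by
    rw [hC]; exact Nat.pow_lt_pow_right (by omega) (by omega)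
  have hsub : ∀ U : Finset (Fin n → Fin q), C ⊆ U →
      r + 4 - 1 ∈ lowerBounds {w : ℕ | ∃ c ∈ U, ∃ c' ∈ U, c ≠ c' ∧ hammingDist c c' = w} →
      ∀ x ∈ U, x ∉ C → Far (C : Set (Fin n → Fin q)) r x ∅ :=
    fun U h1 h2 x hx hxC T _ hT ⟨c, hc, h⟩ => by
      have := (h2 ⟨c, h1 hc, x, hx, fun t => hxC (t ▸ hc), rfl⟩).trans (hle c x T h)
      omega
  constructor
  · rintro ⟨U, ⟨h1, h2, h3⟩, -⟩
    obtain ⟨x, hx, hxC⟩ := exists_mem_notMem_of_card_lt_card (h2 ▸ hlt : C.card < U.card)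
    simpa using H.even_of_far (by simp only [Fintype.card_fin]; omega) (hsub U h1 h3.2 x hx hxC)
  intro he
  have he' : Even (Fintype.card (Fin q)) := by simpa using he
  obtain ⟨U, hUm⟩ : ∃ U : Finset (Fin n → Fin q), ∀ x, x ∈ U ↔ x ∈ C ∨
      Far (C : Set (Fin n → Fin q)) r x ∅ :=
    ⟨C ∪ univ.filter fun x => Far (C : Set (Fin n → Fin q)) r x ∅, fun x => by simp⟩
  have hinj : ∀ x ∈ U, ∀ y ∈ U, ∀ T : Finset (Fin n), T.card ≤ r + 2 →
      (∀ m, m ∉ T → x m = y m) → x = y := fun x hx y hy T hT h => by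
    rcases (hUm x).1 hx with h1 | h1 <;> rcases (hUm y).1 hy with h2 | h2
    · exact hU x h1 y h2 T (by omega) h
    · exact (h2 T (empty_subset _) hT ⟨x, h1, h⟩).elim
    · exact (h1 T (empty_subset _) hT ⟨y, h2, fun m hm => (h m hm).symm⟩).elim
    · exact H.far_eq h1 h2 hT h
  obtain ⟨T, -, hT⟩ := exists_subset_card_eq (s := (univ : Finset (Fin n))) (n := r + 2)
    (by rw [card_univ, Fintype.card_fin]; omega)
  have hcard : U.card = q ^ (n - (r + 4 - 1) + 1) := by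
    rw [card_bij (s := U) (t := (univ : Finset (↥(Tᶜ) → Fin q))) (fun c _ m => c m)
      (fun _ _ => mem_univ _)
      (fun c hc c' hc' h => hinj c hc c' hc' T hT.le fun m hm => congrFun h ⟨m, mem_compl.2 hm⟩)
      fun z _ => ?_, card_univ, Fintype.card_fun, Fintype.card_coe, card_compl, Fintype.card_fin,
      Fintype.card_fin, hT]
    · congr 1; omega
    obtain ⟨x, hx⟩ : ∃ x : Fin n → Fin q, ∀ m : ↥(Tᶜ), x m = z m :=
      ⟨fun m => if h : m ∈ Tᶜ then z ⟨m, h⟩ else ⟨0, by omega⟩, fun m => dif_pos m.2⟩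
    by_cases h1 : Near (C : Set (Fin n → Fin q)) x T
    · obtain ⟨c, hc, h⟩ := h1
      exact ⟨c, (hUm c).2 (Or.inl hc), funext fun m => (h m (mem_compl.1 m.2)).trans (hx m)⟩
    · obtain ⟨u, hu, h⟩ := H.lift he' T x hT.le fun V h2 h3 => by
        rwa [← eq_of_subset_of_card_le h2 (by omega)]
      exact ⟨u, (hUm u).2 (Or.inr hu), funext fun m => (h m (mem_compl.1 m.2)).trans (hx m)⟩
  have hCU : C ⊆ U := fun c hc => (hUm c).2 (Or.inl hc)
  have hlow : r + 4 - 1 ∈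
      lowerBounds {w : ℕ | ∃ c ∈ U, ∃ c' ∈ U, c ≠ c' ∧ hammingDist c c' = w} := by
    rintro _ ⟨c, hc, c', hc', hne, rfl⟩
    by_contra t
    exact hne (hinj c hc c' hc' _ (show hammingDist c c' ≤ r + 2 by omega) (hoff c c'))
  refine ⟨U, ⟨hCU, hcard, ?_, hlow⟩, fun V ⟨h1, h2, h3⟩ => eq_of_subset_of_card_le
    (fun x hx => (hUm x).2 (or_iff_not_imp_left.2 (hsub V h1 h3.2 x hx))) (by omega)⟩
  obtain ⟨x, hx, hxC⟩ := exists_mem_notMem_of_card_lt_card (hcard ▸ hlt : C.card < U.card)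
  obtain ⟨V, -, hV⟩ := exists_subset_card_eq (s := (univ : Finset (Fin n))) (n := r + 3)
    (by rw [card_univ, Fintype.card_fin]; omega)
  obtain ⟨c, hc, h⟩ := H.ex x V hV
  have hne : c ≠ x := fun t => hxC (t ▸ hc)
  refine ⟨c, hCU hc, x, hx, hne, le_antisymm ((hle c x V h).trans (by omega))
    (hlow ⟨c, hCU hc, x, hx, hne, rfl⟩)⟩

end Pool.Agent.Results.MP_deca50_lc.Supercode
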